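import Mathlib

/-!
Module PL4.LA: if `B1 + Q2 < 0` on an `n`-dimensional space and `k1 + k2 = n + 1` then `B1 < 0` on a
`k1`-dimensional subspace or `Q2 < 0` on a `k2`-dimensional one.
-/

namespace PL4

theorem la {n k1 k2 : ℕ} (hk : k1 + k2 = n + 1) (B : LinearMap.BilinForm ℝ (Fin n → ℝ))
    (hB : ∀ a b, B a b = B b a) (Q : (Fin n → ℝ) → ℝ) (hneg : ∀ a, a ≠ 0 → B a a + Q a < 0) :
    (∃ A : Fin k1 → Fin n → ℝ, ∀ c : Fin k1 → ℝ, c ≠ 0 → B (∑ j, c j • A j) (∑ j, c j • A j) < 0) ∨
    (∃ A : Fin k2 → Fin n → ℝ, ∀ c : Fin k2 → ℝ, c ≠ 0 → Q (∑ j, c j • A j) < 0) := by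
  classical
  by_contra hcon
  rw [not_or] at hcon
  obtain ⟨h1, h2⟩ := hcon
  have key : ∀ m : ℕ, m ≤ k1 → ∃ A : Fin m → Fin n → ℝ, ∀ c : Fin m → ℝ, c ≠ 0 →
      B (∑ j, c j • A j) (∑ j, c j • A j) < 0 := by
    intro m
    induction m with
    | zero =>
      intro _
      refine ⟨fun _ => 0, fun c hc => ?_⟩
      exact absurd (Subsingleton.elim c 0) hc
    | succ m ih =>
      intro hm
      obtain ⟨A, hA⟩ := ih (by omega)
      by_contra hno
      -- the orthogonal complement
      let L : (Fin n → ℝ) →ₗ[ℝ] (Fin m → ℝ) := LinearMap.pi fun j => B (A j)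
      have hLW : ∀ v : Fin n → ℝ, v ∈ LinearMap.ker L → ∀ j, B (A j) v = 0 := by
        intro v hv j
        have := congrFun (LinearMap.mem_ker.1 hv) j
        simpa [L] using this
      have hnn : ∀ v : Fin n → ℝ, v ∈ LinearMap.ker L → 0 ≤ B v v := by
        intro v hv
        by_contra hlt
        rw [not_le] at hlt
        apply hno
        refine ⟨Fin.snoc A v, fun c hc => ?_⟩
        rw [Fin.sum_univ_castSucc]
        simp only [Fin.snoc_castSucc, Fin.snoc_last]
        set s : Fin n → ℝ := ∑ j : Fin m, c (Fin.castSucc j) • A j with hs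
        have hsv : B s v = 0 := by
          rw [hs, map_sum, LinearMap.sum_apply]
          refine Finset.sum_eq_zero fun j _ => ?_
          rw [map_smul, LinearMap.smul_apply, hLW v hv j, smul_zero]
        have hvs : B v s = 0 := by rw [hB, hsv]
        have hexp : B (s + c (Fin.last m) • v) (s + c (Fin.last m) • v)
            = B s s + c (Fin.last m) ^ 2 * B v v := by
          simp only [map_add, map_smul, LinearMap.add_apply, LinearMap.smul_apply, smul_eq_mul,
            hsv, hvs]
          ring
        rw [hexp]
        by_cases hc' : (fun j : Fin m => c (Fin.castSucc j)) = 0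
        · have hs0 : s = 0 := by
            rw [hs]
            refine Finset.sum_eq_zero fun j _ => ?_
            have := congrFun hc' j
            simp only [Pi.zero_apply] at this
            rw [this, zero_smul]
          have hl : c (Fin.last m) ≠ 0 := by
            intro hl
            apply hc
            funext j
            refine Fin.lastCases ?_ (fun i => ?_) j
            · simpa using hl
            · simpa using congrFun hc' i
          rw [hs0]
          simp only [map_zero, zero_add]
          exact mul_neg_of_pos_of_neg (by positivity) hlt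
        · have h3 := hA _ hc'
          have h4 : c (Fin.last m) ^ 2 * B v v ≤ 0 :=
            mul_nonpos_of_nonneg_of_nonpos (by positivity) hlt.le
          have h5 : B s s < 0 := h3
          linarith
      have hfin : k2 ≤ Module.finrank ℝ (LinearMap.ker L) := by
        have e1 := LinearMap.finrank_range_add_finrank_ker L
        have e2 : Module.finrank ℝ (LinearMap.range L) ≤ m := by
          refine (Submodule.finrank_le _).trans ?_
          simp
        have e3 : Module.finrank ℝ (Fin n → ℝ) = n := by simp
        omega
      obtain ⟨f, hf⟩ := exists_linearIndependent_of_le_finrank hfin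
      apply h2
      refine ⟨fun j => (f j : Fin n → ℝ), fun c hc => ?_⟩
      have hmem : (∑ j, c j • (f j : Fin n → ℝ)) ∈ LinearMap.ker L :=
        Submodule.sum_mem _ fun j _ => Submodule.smul_mem _ _ (f j).2
      have hne : (∑ j, c j • (f j : Fin n → ℝ)) ≠ 0 := by
        intro h0
        apply hc
        funext i
        refine (Fintype.linearIndependent_iff.1 hf) c ?_ i
        apply Subtype.ext
        simpa using h0
      have := hneg _ hne
      have := hnn _ hmem
      linarith
  exact h1 (key k1 le_rfl)

end PL4
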