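import Pool.Agent.Lib.PL4.Defs
import Pool.Agent.Lib.PL4.LA
import Pool.Agent.Lib.DK4.Loc

/-!
Module PL4.Cut: the cut lemma.
-/

open MeasureTheory Set Filter Topology
open scoped ContDiff NNReal

namespace PL4

open DK4

theorem norm_sq_eq (L : ℂ →L[ℝ] ℝ) : ‖L‖ ^ 2 = L 1 ^ 2 + L Complex.I ^ 2 := by
  have hL : ∀ z : ℂ, L z = z.re * L 1 + z.im * L Complex.I := by
    intro z
    have e : z = z.re • (1 : ℂ) + z.im • Complex.I := by
      apply Complex.ext <;> simp
    conv_lhs => rw [e]
    rw [map_add, map_smul, map_smul, smul_eq_mul, smul_eq_mul]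
  set s := L 1 ^ 2 + L Complex.I ^ 2 with hs
  have hs0 : 0 ≤ s := by positivity
  have h1 : ‖L‖ ≤ Real.sqrt s := by
    refine L.opNorm_le_bound (Real.sqrt_nonneg _) fun z => ?_
    rw [hL z, Real.norm_eq_abs, Complex.norm_def, ← Real.sqrt_mul hs0]
    apply Real.abs_le_sqrt
    rw [hs, Complex.normSq_apply]
    nlinarith [sq_nonneg (z.re * L Complex.I - z.im * L 1)]
  have h2 : s ≤ ‖L‖ * Real.sqrt s := by
    have h3 := L.le_opNorm (⟨L 1, L Complex.I⟩ : ℂ)
    rw [hL, Real.norm_eq_abs, Complex.norm_def, Complex.normSq_apply] at h3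
    have h4 := le_trans (le_abs_self _) h3
    have e1 : (⟨L 1, L Complex.I⟩ : ℂ).re * L 1 + (⟨L 1, L Complex.I⟩ : ℂ).im * L Complex.I = s := by
      simp only [hs]; ring
    rw [e1] at h4
    exact h4
  have h5 : Real.sqrt s ≤ ‖L‖ := by
    rcases eq_or_lt_of_le hs0 with h | h
    · rw [← h, Real.sqrt_zero]
      exact norm_nonneg _
    · have h6 : 0 < Real.sqrt s := Real.sqrt_pos.2 h
      have h7 : Real.sqrt s * Real.sqrt s ≤ ‖L‖ * Real.sqrt s := by
        rw [Real.mul_self_sqrt hs0]; exact h2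
      exact le_of_mul_le_mul_right h7 h6
  have h8 : ‖L‖ = Real.sqrt s := le_antisymm h1 h5
  rw [h8, Real.sq_sqrt hs0]

namespace CutAux

variable {n : ℕ}

/-- the bilinear density -/
noncomputable def bd (Λ : ℝ) (w : Fin n → ℂ → ℝ) (i j : Fin n) (z : ℂ) : ℝ :=
  fderiv ℝ (w i) z 1 * fderiv ℝ (w j) z 1 + fderiv ℝ (w i) z Complex.I * fderiv ℝ (w j) z Complex.I
    - Λ * (w i z * w j z)

/-- the matrix of the energy -/
noncomputable def be (Λ : ℝ) (w : Fin n → ℂ → ℝ) (T : Set ℂ) (i j : Fin n) : ℝ :=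
  ∫ z in T, bd Λ w i j z

theorem fderiv_uc {w : Fin n → ℂ → ℝ} (hw : ∀ j, ContDiff ℝ ∞ (w j)) (c : Fin n → ℝ) (z : ℂ) :
    fderiv ℝ (uc w c) z = ∑ i, c i • fderiv ℝ (w i) z := by
  have h1 : HasFDerivAt (uc w c) (∑ i, c i • fderiv ℝ (w i) z) z := by
    unfold uc
    exact HasFDerivAt.fun_sum fun i _ =>
      (((hw i).differentiable (by simp)).differentiableAt (x := z)).hasFDerivAt.const_mul (c i)
  exact h1.fderiv

theorem dens_eq {Λ : ℝ} {w : Fin n → ℂ → ℝ} (hw : ∀ j, ContDiff ℝ ∞ (w j)) (c : Fin n → ℝ)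
    (z : ℂ) : ‖fderiv ℝ (uc w c) z‖ ^ 2 - Λ * uc w c z ^ 2 =
      ∑ i, ∑ j, c i * bd Λ w i j z * c j := by
  rw [norm_sq_eq, fderiv_uc hw]
  have e1 : ∀ v : ℂ, (∑ i, c i • fderiv ℝ (w i) z) v = ∑ i, c i * fderiv ℝ (w i) z v := by
    intro v
    rw [ContinuousLinearMap.sum_apply]
    rfl
  have e2 : ∀ f : Fin n → ℝ, (∑ i, c i * f i) ^ 2 = ∑ i, ∑ j, c i * (f i * f j) * c j := by
    intro f
    rw [sq, Finset.sum_mul_sum]
    refine Finset.sum_congr rfl fun i _ => Finset.sum_congr rfl fun j _ => ?_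
    ring
  rw [e1, e1]
  unfold uc
  rw [e2, e2, e2, Finset.mul_sum, ← Finset.sum_add_distrib, ← Finset.sum_sub_distrib]
  refine Finset.sum_congr rfl fun i _ => ?_
  rw [Finset.mul_sum, ← Finset.sum_add_distrib, ← Finset.sum_sub_distrib]
  refine Finset.sum_congr rfl fun j _ => ?_
  unfold bd
  ring

theorem bd_cont {Λ : ℝ} {w : Fin n → ℂ → ℝ} (hw : ∀ j, ContDiff ℝ ∞ (w j)) (i j : Fin n) :
    Continuous (bd Λ w i j) := by
  have h1 : ∀ i, ∀ v : ℂ, Continuous fun z => fderiv ℝ (w i) z v := fun i v =>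
    ((hw i).continuous_fderiv (by simp)).clm_apply continuous_const
  have h2 : ∀ i, Continuous (w i) := fun i => (hw i).continuous
  unfold bd
  exact (((h1 i 1).mul (h1 j 1)).add ((h1 i _).mul (h1 j _))).sub
    (continuous_const.mul ((h2 i).mul (h2 j)))

theorem bd_int {Λ : ℝ} {w : Fin n → ℂ → ℝ} (hw : ∀ j, ContDiff ℝ ∞ (w j))
    (hc : ∀ j, HasCompactSupport (w j)) (i j : Fin n) : Integrable (bd Λ w i j) := by
  refine (bd_cont hw i j).integrable_of_hasCompactSupport ?_
  refine HasCompactSupport.intro (hc i).isCompact fun z hz => ?_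
  have h1 : w i z = 0 := image_eq_zero_of_notMem_tsupport hz
  have h2 : fderiv ℝ (w i) z = 0 := fderiv_of_notMem_tsupport ℝ hz
  unfold bd
  rw [h1, h2]
  simp

theorem en_eq {Λ : ℝ} {w : Fin n → ℂ → ℝ} (hw : ∀ j, ContDiff ℝ ∞ (w j))
    (hc : ∀ j, HasCompactSupport (w j)) (c : Fin n → ℝ) (T : Set ℂ) :
    en Λ T (uc w c) = ∑ i, ∑ j, c i * be Λ w T i j * c j := by
  unfold en
  have e : (fun z => ‖fderiv ℝ (uc w c) z‖ ^ 2 - Λ * uc w c z ^ 2) =
      fun z => ∑ i, ∑ j, c i * bd Λ w i j z * c j := funext fun z => dens_eq hw c z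
  rw [e, integral_finsetSum _ fun i _ => integrable_finsetSum _ fun j _ =>
    (((bd_int hw hc i j).integrableOn).const_mul _).mul_const _]
  refine Finset.sum_congr rfl fun i _ => ?_
  rw [integral_finsetSum _ fun j _ =>
    (((bd_int hw hc i j).integrableOn).const_mul _).mul_const _]
  refine Finset.sum_congr rfl fun j _ => ?_
  rw [integral_mul_const, integral_const_mul]
  rfl

theorem be_symm {Λ : ℝ} {w : Fin n → ℂ → ℝ} (T : Set ℂ) (i j : Fin n) :
    be Λ w T i j = be Λ w T j i := by
  unfold be bd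
  congr 1
  funext z
  ring

/-- continuity of the integral over a moving half space -/
theorem cont_half {S : Set ℂ} (hS : MeasurableSet S) {p : ℂ → ℝ} (hp : Continuous p)
    (hnull : ∀ t : ℝ, volume {z | p z = t} = 0) {f : ℂ → ℝ} (hf : Integrable f) :
    (Continuous fun t : ℝ => ∫ z in S ∩ {z | p z < t}, f z) ∧
      Continuous fun t : ℝ => ∫ z in S ∩ {z | t < p z}, f z := by
  have hm1 : ∀ t, MeasurableSet (S ∩ {z | p z < t}) := fun t =>
    hS.inter (isOpen_lt hp continuous_const).measurableSet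
  have hm2 : ∀ t, MeasurableSet (S ∩ {z | t < p z}) := fun t =>
    hS.inter (isOpen_lt continuous_const hp).measurableSet
  constructor
  · rw [continuous_iff_continuousAt]
    intro t0
    have e : (fun t : ℝ => ∫ z in S ∩ {z | p z < t}, f z) =
        fun t : ℝ => ∫ z, (S ∩ {z | p z < t}).indicator f z :=
      funext fun t => (integral_indicator (hm1 t)).symm
    rw [e]
    refine tendsto_integral_filter_of_dominated_convergence (fun z => ‖f z‖) ?_ ?_ hf.norm ?_
    · exact Eventually.of_forall fun t => (hf.indicator (hm1 t)).aestronglyMeasurable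
    · exact Eventually.of_forall fun t => Eventually.of_forall fun z => norm_indicator_le_norm_self _ _
    · have hae : ∀ᵐ z : ℂ, p z ≠ t0 := by
        rw [ae_iff]; simpa using hnull t0
      filter_upwards [hae] with z hz
      refine tendsto_const_nhds.congr' ?_
      rcases lt_or_gt_of_ne hz with h | h
      · filter_upwards [lt_mem_nhds h] with t ht
        by_cases hzS : z ∈ S
        · rw [indicator_of_mem (s := S ∩ {z | p z < t0}) ⟨hzS, h⟩,
            indicator_of_mem (s := S ∩ {z | p z < t}) ⟨hzS, ht⟩]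
        · rw [indicator_of_notMem (fun h => hzS h.1), indicator_of_notMem (fun h => hzS h.1)]
      · filter_upwards [gt_mem_nhds h] with t ht
        rw [indicator_of_notMem (fun h' => lt_asymm h h'.2),
          indicator_of_notMem (fun h' => lt_asymm ht h'.2)]
  · rw [continuous_iff_continuousAt]
    intro t0
    have e : (fun t : ℝ => ∫ z in S ∩ {z | t < p z}, f z) =
        fun t : ℝ => ∫ z, (S ∩ {z | t < p z}).indicator f z :=
      funext fun t => (integral_indicator (hm2 t)).symm
    rw [e]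
    refine tendsto_integral_filter_of_dominated_convergence (fun z => ‖f z‖) ?_ ?_ hf.norm ?_
    · exact Eventually.of_forall fun t => (hf.indicator (hm2 t)).aestronglyMeasurable
    · exact Eventually.of_forall fun t => Eventually.of_forall fun z => norm_indicator_le_norm_self _ _
    · have hae : ∀ᵐ z : ℂ, p z ≠ t0 := by
        rw [ae_iff]; simpa using hnull t0
      filter_upwards [hae] with z hz
      refine tendsto_const_nhds.congr' ?_
      rcases lt_or_gt_of_ne hz with h | h
      · filter_upwards [lt_mem_nhds h] with t ht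
        rw [indicator_of_notMem (fun h' => lt_asymm h h'.2),
          indicator_of_notMem (fun h' => lt_asymm ht h'.2)]
      · filter_upwards [gt_mem_nhds h] with t ht
        by_cases hzS : z ∈ S
        · rw [indicator_of_mem (s := S ∩ {z | t0 < p z}) ⟨hzS, h⟩,
            indicator_of_mem (s := S ∩ {z | t < p z}) ⟨hzS, ht⟩]
        · rw [indicator_of_notMem (fun h => hzS h.1), indicator_of_notMem (fun h => hzS h.1)]

/-- negative definiteness of a continuous family of quadratic forms is an open condition -/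
theorem open_neg {k : ℕ} {m : ℝ → Fin n → Fin n → ℝ} (hm : ∀ i j, Continuous fun t => m t i j)
    (A : Fin k → Fin n → ℝ) :
    IsOpen {t : ℝ | ∀ c : Fin k → ℝ, c ≠ 0 →
      ∑ i, ∑ j, (∑ l, c l • A l) i * m t i j * (∑ l, c l • A l) j < 0} := by
  set F : ℝ × (Fin k → ℝ) → ℝ := fun x =>
    ∑ i, ∑ j, (∑ l, x.2 l • A l) i * m x.1 i j * (∑ l, x.2 l • A l) j with hF
  have hlin : ∀ i, Continuous fun x : ℝ × (Fin k → ℝ) => (∑ l, x.2 l • A l) i := by
    intro i
    have e : (fun x : ℝ × (Fin k → ℝ) => (∑ l, x.2 l • A l) i) = fun x => ∑ l, x.2 l * A l i := by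
      funext x
      rw [Finset.sum_apply]
      rfl
    rw [e]
    exact continuous_finsetSum _ fun l _ =>
      ((continuous_apply l).comp continuous_snd).mul continuous_const
  have hFc : Continuous F := by
    rw [hF]
    exact continuous_finsetSum _ fun i _ => continuous_finsetSum _ fun j _ =>
      ((hlin i).mul ((hm i j).comp continuous_fst)).mul (hlin j)
  have hhom : ∀ t (r : ℝ) (c : Fin k → ℝ), F (t, r • c) = r ^ 2 * F (t, c) := by
    intro t r c
    rw [hF]
    simp only [Finset.mul_sum]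
    refine Finset.sum_congr rfl fun i _ => Finset.sum_congr rfl fun j _ => ?_
    have e : ∀ i, (∑ l, (r • c) l • A l) i = r * (∑ l, c l • A l) i := by
      intro i
      rw [Finset.sum_apply, Finset.sum_apply, Finset.mul_sum]
      refine Finset.sum_congr rfl fun l _ => ?_
      simp only [Pi.smul_apply, smul_eq_mul]
      ring
    rw [e, e]
    ring
  have hset : {t : ℝ | ∀ c : Fin k → ℝ, c ≠ 0 →
      ∑ i, ∑ j, (∑ l, c l • A l) i * m t i j * (∑ l, c l • A l) j < 0} =
      {t : ℝ | ∀ c ∈ Metric.sphere (0 : Fin k → ℝ) 1, F (t, c) < 0} := by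
    ext t
    constructor
    · intro h c hc
      refine h c ?_
      rintro rfl
      rw [mem_sphere_zero_iff_norm, norm_zero] at hc
      exact zero_ne_one hc
    · intro h c hc
      have hn : 0 < ‖c‖ := norm_pos_iff.2 hc
      have h1 := h (‖c‖⁻¹ • c) (by
        rw [mem_sphere_zero_iff_norm, norm_smul, norm_inv, norm_norm, inv_mul_cancel₀ hn.ne'])
      rw [hhom] at h1
      have h2 : 0 < (‖c‖⁻¹) ^ 2 := by positivity
      have h3 : F (t, c) < 0 := by
        by_contra hcon
        exact absurd (mul_nonneg h2.le (not_lt.1 hcon)) (not_le.2 h1)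
      exact h3
  rw [hset, isOpen_iff_mem_nhds]
  intro t ht
  refine (isCompact_sphere (0 : Fin k → ℝ) 1).eventually_forall_of_forall_eventually
    (P := fun t c => F (t, c) < 0) fun c hc => ?_
  exact hFc.continuousAt.eventually_lt continuousAt_const (ht c hc)

theorem uc_comp {k : ℕ} (w : Fin n → ℂ → ℝ) (A : Fin k → Fin n → ℝ) (c : Fin k → ℝ) :
    uc (fun l => uc w (A l)) c = uc w (∑ l, c l • A l) := by
  funext z
  unfold uc
  have e : ∀ i, (∑ l, c l • A l) i = ∑ l, c l * A l i := by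
    intro i
    rw [Finset.sum_apply]
    rfl
  simp only [e, Finset.mul_sum, Finset.sum_mul]
  rw [Finset.sum_comm]
  refine Finset.sum_congr rfl fun i _ => Finset.sum_congr rfl fun l _ => ?_
  ring

theorem uc_test {Ω : Set ℂ} {w : Fin n → ℂ → ℝ} (hw : ∀ j, IsTest Ω (w j)) (a : Fin n → ℝ) :
    IsTest Ω (uc w a) := by
  have e : uc w a = ∑ i, a i • w i := by
    funext z
    rw [Finset.sum_apply]
    rfl
  refine ⟨?_, ?_, ?_⟩
  · unfold uc
    exact ContDiff.sum fun i _ => contDiff_const.mul (hw i).1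
  · rw [e]
    classical
    induction (Finset.univ : Finset (Fin n)) using Finset.induction_on with
    | empty => rw [Finset.sum_empty]; exact HasCompactSupport.zero
    | insert i s his ih =>
      rw [Finset.sum_insert his]
      exact ((hw i).2.1.smul_left (f := fun _ => a i)).add ih
  · rw [e]
    classical
    induction (Finset.univ : Finset (Fin n)) using Finset.induction_on with
    | empty => rw [Finset.sum_empty, tsupport_zero]; exact empty_subset _
    | insert i s his ih =>
      rw [Finset.sum_insert his]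
      refine (tsupport_add _ _).trans (union_subset ?_ ih)
      exact (tsupport_smul_subset_right (fun _ => a i) (w i)).trans (hw i).2.2

end CutAux

open CutAux

theorem cut {n k1 k2 : ℕ} (hk : k1 + k2 = n + 1) (h1 : 1 ≤ k1) (h2 : 1 ≤ k2) {Ω : Set ℂ} {Λ : ℝ}
    {S : Set ℂ} (hS : MeasurableSet S) {p : ℂ → ℝ} (hp : Continuous p)
    (hnull : ∀ t : ℝ, volume {z | p z = t} = 0) (h : NegT Ω Λ n S) :
    ∃ t : ℝ, NegT Ω Λ k1 (S ∩ {z | p z < t}) ∧ NegT Ω Λ k2 (S ∩ {z | t < p z}) := by
  obtain ⟨w, hw, hneg⟩ := h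
  have hwd : ∀ j, ContDiff ℝ ∞ (w j) := fun j => (hw j).1
  have hwc : ∀ j, HasCompactSupport (w j) := fun j => (hw j).2.1
  have hm1 : ∀ t, MeasurableSet (S ∩ {z | p z < t}) := fun t =>
    hS.inter (isOpen_lt hp continuous_const).measurableSet
  have hm2 : ∀ t, MeasurableSet (S ∩ {z | t < p z}) := fun t =>
    hS.inter (isOpen_lt continuous_const hp).measurableSet
  -- the two families of sets
  set U1 : Set ℝ := ⋃ A : Fin k1 → Fin n → ℝ, {t : ℝ | ∀ c : Fin k1 → ℝ, c ≠ 0 →
      ∑ i, ∑ j, (∑ l, c l • A l) i * be Λ w (S ∩ {z | p z < t}) i j * (∑ l, c l • A l) j < 0}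
    with hU1
  set U2 : Set ℝ := ⋃ A : Fin k2 → Fin n → ℝ, {t : ℝ | ∀ c : Fin k2 → ℝ, c ≠ 0 →
      ∑ i, ∑ j, (∑ l, c l • A l) i * be Λ w (S ∩ {z | t < p z}) i j * (∑ l, c l • A l) j < 0}
    with hU2
  have ho1 : IsOpen U1 := isOpen_iUnion fun A => open_neg (m := fun t i j =>
    be Λ w (S ∩ {z | p z < t}) i j) (fun i j => (cont_half hS hp hnull (bd_int hwd hwc i j)).1) A
  have ho2 : IsOpen U2 := isOpen_iUnion fun A => open_neg (m := fun t i j =>
    be Λ w (S ∩ {z | t < p z}) i j) (fun i j => (cont_half hS hp hnull (bd_int hwd hwc i j)).2) A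
  -- additivity
  have hadd : ∀ t (c : Fin n → ℝ), en Λ (S ∩ {z | p z < t}) (uc w c) +
      en Λ (S ∩ {z | t < p z}) (uc w c) = en Λ S (uc w c) := by
    intro t c
    have hint : Integrable fun z => ‖fderiv ℝ (uc w c) z‖ ^ 2 - Λ * uc w c z ^ 2 := by
      have e : (fun z => ‖fderiv ℝ (uc w c) z‖ ^ 2 - Λ * uc w c z ^ 2) =
        fun z => ∑ i, ∑ j, c i * bd Λ w i j z * c j := funext fun z => dens_eq hwd c z
      rw [e]
      exact integrable_finsetSum _ fun i _ => integrable_finsetSum _ fun j _ =>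
        ((bd_int hwd hwc i j).const_mul _).mul_const _
    unfold en
    rw [← setIntegral_union (by
        rw [Set.disjoint_left]
        rintro z ⟨-, h3⟩ ⟨-, h4⟩
        exact lt_asymm (show p z < t from h3) (show t < p z from h4)) (hm2 t) hint.integrableOn hint.integrableOn]
    refine setIntegral_congr_set ?_
    have hae : ∀ᵐ z : ℂ, p z ≠ t := by
      rw [ae_iff]; simpa using hnull t
    filter_upwards [hae] with z hz
    apply propext
    constructor
    · rintro (h3 | h3)
      · exact h3.1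
      · exact h3.1
    · intro h3
      rcases lt_or_gt_of_ne hz with h4 | h4
      · exact Or.inl ⟨h3, h4⟩
      · exact Or.inr ⟨h3, h4⟩
  have hcov : (univ : Set ℝ) ⊆ U1 ∪ U2 := by
    intro t _
    have hB := la hk (Matrix.toBilin' (Matrix.of fun i j => be Λ w (S ∩ {z | p z < t}) i j))
      (fun a b => by
        rw [Matrix.toBilin'_apply, Matrix.toBilin'_apply, Finset.sum_comm]
        refine Finset.sum_congr rfl fun i _ => Finset.sum_congr rfl fun j _ => ?_
        rw [Matrix.of_apply, Matrix.of_apply, be_symm]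
        ring)
      (fun c => en Λ (S ∩ {z | t < p z}) (uc w c)) (fun c hc => by
        rw [Matrix.toBilin'_apply]
        have e := en_eq (Λ := Λ) hwd hwc c (S ∩ {z | p z < t})
        simp only [Matrix.of_apply]
        rw [← e, hadd]
        exact hneg c hc)
    rcases hB with ⟨A, hA⟩ | ⟨A, hA⟩
    · left
      rw [hU1, mem_iUnion]
      refine ⟨A, fun c hc => ?_⟩
      have h3 := hA c hc
      rw [Matrix.toBilin'_apply] at h3
      simpa only [Matrix.of_apply] using h3
    · right
      rw [hU2, mem_iUnion]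
      refine ⟨A, fun c hc => ?_⟩
      have h3 := hA c hc
      rw [en_eq hwd hwc] at h3
      exact h3
  -- bounded supports
  obtain ⟨R, hR⟩ : ∃ R : ℝ, ∀ j z, w j z ≠ 0 ∨ fderiv ℝ (w j) z ≠ 0 → |p z| ≤ R := by
    have h3 : ∀ j, ∃ R : ℝ, ∀ z ∈ tsupport (w j), |p z| ≤ R := fun j =>
      (hwc j).isCompact.exists_bound_of_continuousOn hp.continuousOn
    choose R hR using h3
    refine ⟨∑ j, |R j|, fun j z hz => ?_⟩
    have h4 : z ∈ tsupport (w j) := by
      rcases hz with h | h
      · exact subset_tsupport _ h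
      · by_contra hn
        exact h (fderiv_of_notMem_tsupport ℝ hn)
    exact ((hR j z h4).trans (le_abs_self _)).trans
      (Finset.single_le_sum (f := fun j => |R j|) (fun i _ => abs_nonneg _) (Finset.mem_univ j))
  have hfar : ∀ T : Set ℂ, (∀ z, |p z| ≤ R → (z ∈ T ↔ z ∈ S)) → MeasurableSet T →
      ∀ c, en Λ T (uc w c) = en Λ S (uc w c) := by
    intro T hT hTm c
    have h0 : ∀ z, ¬ |p z| ≤ R → ‖fderiv ℝ (uc w c) z‖ ^ 2 - Λ * uc w c z ^ 2 = 0 := by
      intro z hz
      have h3 : ∀ j, w j z = 0 := fun j => by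
        by_contra h
        exact hz (hR j z (Or.inl h))
      have h4 : ∀ j, fderiv ℝ (w j) z = 0 := fun j => by
        by_contra h
        exact hz (hR j z (Or.inr h))
      rw [fderiv_uc hwd]
      simp [uc, h3, h4]
    unfold en
    rw [← integral_indicator hTm, ← integral_indicator hS]
    congr 1
    funext z
    by_cases hz : |p z| ≤ R
    · by_cases hzS : z ∈ S
      · rw [indicator_of_mem hzS, indicator_of_mem ((hT z hz).2 hzS)]
      · rw [indicator_of_notMem hzS, indicator_of_notMem (fun h => hzS ((hT z hz).1 h))]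
    · by_cases hzS : z ∈ S <;> by_cases hzT : z ∈ T <;> simp [hzS, hzT, h0 z hz]
  have hbase : ∀ k, k ≤ n → ∃ A : Fin k → Fin n → ℝ, ∀ c : Fin k → ℝ, c ≠ 0 → (∑ l, c l • A l) ≠ 0 := by
    intro k hkn
    refine ⟨fun l => Pi.single (Fin.castLE hkn l) 1, fun c hc h0 => hc ?_⟩
    funext l
    have h3 := congrFun h0 (Fin.castLE hkn l)
    rw [Finset.sum_apply] at h3
    have h4 : ∀ x : Fin k, (c x • (Pi.single (Fin.castLE hkn x) (1 : ℝ) : Fin n → ℝ))
        (Fin.castLE hkn l) = if x = l then c x else 0 := by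
      intro x
      rw [Pi.smul_apply, smul_eq_mul]
      by_cases hx : x = l
      · subst hx
        simp
      · rw [if_neg hx, Pi.single_eq_of_ne, mul_zero]
        intro h
        exact hx (Fin.castLE_injective hkn h).symm
    simp only [h4, Finset.sum_ite_eq', Finset.mem_univ, if_true] at h3
    exact h3
  have hne1 : (univ ∩ U1).Nonempty := by
    refine ⟨R + 1, mem_univ _, ?_⟩
    obtain ⟨A, hA⟩ := hbase k1 (by omega)
    rw [hU1, mem_iUnion]
    refine ⟨A, fun c hc => ?_⟩
    rw [← en_eq hwd hwc, hfar _ (fun z hz => ?_) (hm1 _)]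
    · exact hneg _ (hA c hc)
    · constructor
      · exact fun h => h.1
      · intro h
        refine ⟨h, ?_⟩
        show p z < R + 1
        linarith [le_abs_self (p z)]
  have hne2 : (univ ∩ U2).Nonempty := by
    refine ⟨-R - 1, mem_univ _, ?_⟩
    obtain ⟨A, hA⟩ := hbase k2 (by omega)
    rw [hU2, mem_iUnion]
    refine ⟨A, fun c hc => ?_⟩
    rw [← en_eq hwd hwc, hfar _ (fun z hz => ?_) (hm2 _)]
    · exact hneg _ (hA c hc)
    · constructor
      · exact fun h => h.1
      · intro h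
        refine ⟨h, ?_⟩
        show -R - 1 < p z
        linarith [neg_abs_le (p z)]
  obtain ⟨t, -, ht1, ht2⟩ := isPreconnected_univ U1 U2 ho1 ho2 hcov hne1 hne2
  rw [hU1, mem_iUnion] at ht1
  rw [hU2, mem_iUnion] at ht2
  obtain ⟨A1, hA1⟩ := ht1
  obtain ⟨A2, hA2⟩ := ht2
  refine ⟨t, ⟨fun l => uc w (A1 l), fun l => uc_test hw _, fun c hc => ?_⟩,
    ⟨fun l => uc w (A2 l), fun l => uc_test hw _, fun c hc => ?_⟩⟩
  · rw [uc_comp, en_eq hwd hwc]
    exact hA1 c hc
  · rw [uc_comp, en_eq hwd hwc]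
    exact hA2 c hc

end PL4
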