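import Pool.Agent.Lib.PL4.Cell
import Pool.Agent.Lib.PL4.Cut
import Pool.Agent.Lib.DK4.Main

/-!
Module PL4.Main: `H3` and Theorem A.

`half3`: `Hf t σ` is open; `cut` with `n = 3`, `k1 = k2 = 2`, `S = Hf t σ`, `p = Complex.im` (level sets are null: as in
`FoldAux.ae_im`, translated; e.g. by `Complex.volume_preserving_equiv_real_prod` or `Measure.addHaar_affineSubspace`) gives
`s`; `Hf t σ ∩ {im < s} = Qd t s σ (-1)`, `Hf t σ ∩ {s < im} = Qd t s σ 1`; `quad2` twice, the quadrants are disjoint.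
`main4`: `cut` with `n = 4`, `k1 = 2`, `k2 = 3`, `S = univ`, `p = Complex.re`; `univ ∩ {re < t} = Hf t (-1)`,
`univ ∩ {t < re} = Hf t 1`; `half2` and `half3`.
`eig4`: as in `DK4.eig_bound` (a basis of `V`, `finrank V = 4`; `q Λ u = en Λ univ u` by `q_eq_integral`).
-/

open MeasureTheory Set
open scoped ContDiff NNReal

namespace PL4

open DK4

theorem null_re (t : ℝ) : volume {z : ℂ | z.re = t} = 0 := by
  have h := Complex.volume_preserving_equiv_real_prod
  have h1 : {z : ℂ | z.re = t} =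
      Complex.measurableEquivRealProd ⁻¹' (({t} : Set ℝ) ×ˢ (univ : Set ℝ)) := by
    ext z
    simp [Complex.measurableEquivRealProd]
  rw [h1, h.measure_preimage_equiv, Measure.volume_eq_prod, Measure.prod_prod,
    Real.volume_singleton, zero_mul]

theorem null_im (t : ℝ) : volume {z : ℂ | z.im = t} = 0 := by
  have h := Complex.volume_preserving_equiv_real_prod
  have h1 : {z : ℂ | z.im = t} =
      Complex.measurableEquivRealProd ⁻¹' ((univ : Set ℝ) ×ˢ ({t} : Set ℝ)) := by
    ext z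
    simp [Complex.measurableEquivRealProd]
  rw [h1, h.measure_preimage_equiv, Measure.volume_eq_prod, Measure.prod_prod,
    Real.volume_singleton, mul_zero]

namespace MainAux

theorem isOpen_Hf (t σ : ℝ) : IsOpen (Hf t σ) :=
  isOpen_lt continuous_const (continuous_const.mul (Complex.continuous_re.sub continuous_const))

theorem isOpen_Qd (t s σ τ : ℝ) : IsOpen (Qd t s σ τ) :=
  (isOpen_lt continuous_const
    (continuous_const.mul (Complex.continuous_re.sub continuous_const))).inter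
    (isOpen_lt continuous_const
      (continuous_const.mul (Complex.continuous_im.sub continuous_const)))

/-- two disjoint measurable parts of a set of finite measure -/
theorem real_two {X A B : Set ℂ} (hX : volume X ≠ ⊤) (hA : A ⊆ X) (hB : B ⊆ X)
    (hAB : Disjoint A B) (hBm : MeasurableSet B) :
    volume.real A + volume.real B ≤ volume.real X := by
  have hAf : volume A ≠ ⊤ := ne_top_of_le_ne_top hX (measure_mono hA)
  have hBf : volume B ≠ ⊤ := ne_top_of_le_ne_top hX (measure_mono hB)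
  rw [← measureReal_union hAB hBm hAf hBf]
  exact measureReal_mono (union_subset hA hB) hX

end MainAux

open MainAux

theorem half3 {Ω : Set ℂ} (hΩ : IsOpen Ω) (hfin : volume Ω ≠ ⊤) {Λ : ℝ} (hΛ : 0 ≤ Λ)
    {t σ : ℝ} (hσ : σ = 1 ∨ σ = -1) (h : NegT Ω Λ 3 (Hf t σ)) :
    3 / 2 * (Real.pi * j01 ^ 2) ≤ Λ * volume.real (Ω ∩ Hf t σ) := by
  obtain ⟨s, h1, h2⟩ := cut (k1 := 2) (k2 := 2) (by norm_num) (by norm_num) (by norm_num)
    (isOpen_Hf t σ).measurableSet Complex.continuous_im null_im h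
  have e1 : Hf t σ ∩ {z | z.im < s} = Qd t s σ (-1) := by
    ext z
    simp only [Hf, Qd, mem_inter_iff, mem_ofPred_eq]
    constructor
    · rintro ⟨h3, h4⟩
      exact ⟨h3, by linarith⟩
    · rintro ⟨h3, h4⟩
      exact ⟨h3, by linarith⟩
  have e2 : Hf t σ ∩ {z | s < z.im} = Qd t s σ 1 := by
    ext z
    simp only [Hf, Qd, mem_inter_iff, mem_ofPred_eq]
    constructor
    · rintro ⟨h3, h4⟩
      exact ⟨h3, by linarith⟩
    · rintro ⟨h3, h4⟩
      exact ⟨h3, by linarith⟩
  rw [e1] at h1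
  rw [e2] at h2
  have h3 := quad2 hΩ hfin hΛ hσ (Or.inr rfl) h1
  have h4 := quad2 hΩ hfin hΛ hσ (Or.inl rfl) h2
  have h5 : volume.real (Ω ∩ Qd t s σ (-1)) + volume.real (Ω ∩ Qd t s σ 1) ≤
      volume.real (Ω ∩ Hf t σ) := by
    apply real_two (ne_top_of_le_ne_top hfin (measure_mono inter_subset_left))
    · exact inter_subset_inter_right _ fun z hz => hz.1
    · exact inter_subset_inter_right _ fun z hz => hz.1
    · rw [Set.disjoint_left]
      rintro z ⟨-, h6⟩ ⟨-, h7⟩
      have h8 : 0 < -1 * (z.im - s) := h6.2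
      have h9 : 0 < 1 * (z.im - s) := h7.2
      linarith
    · exact (hΩ.inter (isOpen_Qd t s σ 1)).measurableSet
  have h6 := mul_le_mul_of_nonneg_left h5 hΛ
  linarith

theorem main4 {Ω : Set ℂ} (hΩ : IsOpen Ω) (hfin : volume Ω ≠ ⊤) {Λ : ℝ} (hΛ : 0 ≤ Λ)
    (h : NegT Ω Λ 4 univ) : 5 / 2 * (Real.pi * j01 ^ 2) ≤ Λ * volume.real Ω := by
  obtain ⟨t, h1, h2⟩ := cut (k1 := 2) (k2 := 3) (by norm_num) (by norm_num) (by norm_num)
    MeasurableSet.univ Complex.continuous_re null_re h
  have e1 : univ ∩ {z : ℂ | z.re < t} = Hf t (-1) := by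
    ext z
    simp only [Hf, mem_inter_iff, mem_univ, true_and, mem_ofPred_eq]
    constructor
    · intro h4
      linarith
    · intro h4
      linarith
  have e2 : univ ∩ {z : ℂ | t < z.re} = Hf t 1 := by
    ext z
    simp only [Hf, mem_inter_iff, mem_univ, true_and, mem_ofPred_eq]
    constructor
    · intro h4
      linarith
    · intro h4
      linarith
  rw [e1] at h1
  rw [e2] at h2
  have h3 := half2 hΩ hfin hΛ (Or.inr rfl) h1
  have h4 := half3 hΩ hfin hΛ (Or.inl rfl) h2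
  have h5 : volume.real (Ω ∩ Hf t (-1)) + volume.real (Ω ∩ Hf t 1) ≤ volume.real Ω := by
    apply real_two hfin inter_subset_left inter_subset_left
    · rw [Set.disjoint_left]
      rintro z ⟨-, h6⟩ ⟨-, h7⟩
      have h8 : 0 < -1 * (z.re - t) := h6
      have h9 : 0 < 1 * (z.re - t) := h7
      linarith
    · exact (hΩ.inter (isOpen_Hf t 1)).measurableSet
  have h6 := mul_le_mul_of_nonneg_left h5 hΛ
  linarith

/-- a space of test functions gives `NegT` -/
theorem negT_of_space {n : ℕ} {Ω : Set ℂ} {Λ : ℝ} (V : Submodule ℝ (ℂ → ℝ))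
    (hV : Module.finrank ℝ V = n) (hVt : ∀ u ∈ V, IsTest Ω u)
    (hneg : ∀ u ∈ V, u ≠ 0 → q Λ u < 0) : NegT Ω Λ n univ := by
  rcases Nat.eq_zero_or_pos n with h0 | hpos
  · subst h0
    exact ⟨fun j => j.elim0, fun j => j.elim0, fun c hc => absurd (Subsingleton.elim c 0) hc⟩
  · have : Module.Finite ℝ V := Module.finite_of_finrank_pos (by omega)
    let b := Module.finBasisOfFinrankEq ℝ V hV
    refine ⟨fun j => (b j : ℂ → ℝ), fun j => hVt _ (b j).2, fun c hc => ?_⟩
    have e : uc (fun j => (b j : ℂ → ℝ)) c = ((∑ i, c i • b i : V) : ℂ → ℝ) := by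
      funext z
      simp [uc, Finset.sum_apply]
    have hne : ((∑ i, c i • b i : V) : ℂ → ℝ) ≠ 0 := by
      intro h1
      apply hc
      have h2 : (∑ i, c i • b i : V) = 0 := Subtype.ext h1
      funext i
      exact Fintype.linearIndependent_iff.1 b.linearIndependent c h2 i
    have h3 := hneg _ (∑ i, c i • b i : V).2 hne
    rw [q_eq_integral (hVt _ (∑ i, c i • b i : V).2).adm] at h3
    unfold en
    rw [Measure.restrict_univ, e]
    exact h3

theorem eig4 {Ω : Set ℂ} (hΩ : IsOpen Ω) (hne : Ω.Nonempty) (hfin : volume Ω ≠ ⊤) :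
    5 / 2 * (Real.pi * j01 ^ 2) ≤ dirEig 4 Ω * volume.real Ω := by
  have hpos : 0 < volume.real Ω := by
    unfold Measure.real
    exact ENNReal.toReal_pos (hΩ.measure_pos volume hne).ne' hfin
  rw [← div_le_iff₀ hpos]
  unfold dirEig
  apply le_csInf (exists_space 4 hΩ hne)
  rintro Λ ⟨V, hV, hVt, hq⟩
  rw [div_le_iff₀ hpos]
  by_contra hcon
  rw [not_le] at hcon
  obtain ⟨Λ', h1, h2⟩ : ∃ Λ', Λ < Λ' ∧ Λ' * volume.real Ω < 5 / 2 * (Real.pi * j01 ^ 2) := by
    obtain ⟨Λ', h1, h2⟩ := exists_between ((lt_div_iff₀ hpos).2 hcon)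
    exact ⟨Λ', h1, by rwa [lt_div_iff₀ hpos] at h2⟩
  have hneg : ∀ u ∈ V, u ≠ 0 → q Λ' u < 0 := by
    intro u hu hne'
    have h3 := hq u hu
    have h4 := integral_sq_pos (hVt u hu) hne'
    unfold q
    nlinarith
  have hT := negT_of_space V hV hVt hneg
  have hΛ0 : 0 ≤ Λ := by
    by_contra hc
    rw [not_le] at hc
    have : Module.Finite ℝ V := Module.finite_of_finrank_pos (by omega)
    obtain ⟨v, hv⟩ := Module.finrank_pos_iff_exists_ne_zero.1 (show 0 < Module.finrank ℝ V by omega)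
    have hv' : (v : ℂ → ℝ) ≠ 0 := fun h => hv (Subtype.ext h)
    have h3 := hq v v.2
    have h4 := integral_sq_pos (hVt v v.2) hv'
    have h5 : 0 ≤ ∫ z, ‖fderiv ℝ (v : ℂ → ℝ) z‖ ^ 2 := integral_nonneg fun z => by positivity
    nlinarith
  have h6 := main4 hΩ hfin (hΛ0.trans h1.le) hT
  linarith

end PL4
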