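import Pool.Agent.Lib.PL4.Two
import Pool.Agent.Lib.DK4.Pair
import Pool.Agent.Lib.DK4.Fold
import Pool.Agent.Lib.FK4.Fkk

/-!
Module PL4.Cell: areas of half planes and quadrants of index two.

`fk_half`: `foldh t σ f` is `Adm`, nonnegative, `q Λ (foldh t σ f) = 2 en Λ (Hf t σ) f < 0` (`foldh_sq`, `foldh_en`,
`integral_sub` on the half plane with `Adm.integrable_en`, `Adm.integrable_sq`); `FK4.fk` gives
`π j01² ≤ Λ volume.real {0 < foldh} = 2 Λ volume.real (Hf ∩ {0 < f})` (`foldh_vol`).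
`half2`: `two` gives `f, g`; the sets `Hf ∩ {0 < f}`, `Hf ∩ {0 < g}` are disjoint and contained in `Ω ∩ Hf`.
`quad2`: `two` gives `f, g`; `F = foldq t s σ τ f`, `G = foldq t s σ τ g` are `Adm`, nonnegative, even
(`F (-z) = F z`), at each point one of them is zero, `q Λ F = 4 en Λ Qd f < 0`.  `pair_lemma` with `lam = mu = Λ`:
one of `Λ |{0 < F}|`, `Λ |{0 < G}|` is at least `2 π j01²` (as `8 ≥ 2`), and both are at least `π j01²` (`FK4.fk`).
So `3 π j01² ≤ Λ (|{0<F}| + |{0<G}|) = 4 Λ (|Qd ∩ {0<f}| + |Qd ∩ {0<g}|) ≤ 4 Λ |Ω ∩ Qd|` (`foldq_vol`).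
-/

open MeasureTheory Set
open scoped ContDiff NNReal

namespace PL4

open DK4

namespace CellAux

theorem en_split {Λ : ℝ} {f : ℂ → ℝ} (hf : Adm f) (S : Set ℂ) :
    en Λ S f = (∫ z in S, ‖fderiv ℝ f z‖ ^ 2) - Λ * ∫ z in S, f z ^ 2 := by
  unfold en
  rw [integral_sub hf.integrable_en.integrableOn (hf.integrable_sq.const_mul Λ).integrableOn,
    integral_const_mul]

theorem meas_Hf (t σ : ℝ) : MeasurableSet (Hf t σ) :=
  (isOpen_lt continuous_const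
    (continuous_const.mul (Complex.continuous_re.sub continuous_const))).measurableSet

theorem meas_Qd (t s σ τ : ℝ) : MeasurableSet (Qd t s σ τ) :=
  ((isOpen_lt continuous_const
    (continuous_const.mul (Complex.continuous_re.sub continuous_const))).inter
    (isOpen_lt continuous_const
    (continuous_const.mul (Complex.continuous_im.sub continuous_const)))).measurableSet

theorem meas_pos {f : ℂ → ℝ} (hf : Adm f) : MeasurableSet {z | 0 < f z} :=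
  (isOpen_lt continuous_const hf.continuous).measurableSet

/-- two disjoint pieces inside `Ω ∩ S` -/
theorem sum_le {Ω S : Set ℂ} (hfin : volume Ω ≠ ⊤) (hS : MeasurableSet S) {f g : ℂ → ℝ}
    (hf : Adm f) (hg : Adm g) (hdis : ∀ z, f z = 0 ∨ g z = 0)
    (hout : ∀ z, z ∉ Ω → f z = 0 ∧ g z = 0) :
    volume.real (S ∩ {z | 0 < f z}) + volume.real (S ∩ {z | 0 < g z}) ≤
      volume.real (Ω ∩ S) := by
  have hfΩ : S ∩ {z | 0 < f z} ⊆ Ω ∩ S := by
    rintro z ⟨hz, hz'⟩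
    refine ⟨?_, hz⟩
    by_contra h
    have h1 : 0 < f z := hz'
    rw [(hout z h).1] at h1
    exact lt_irrefl _ h1
  have hgΩ : S ∩ {z | 0 < g z} ⊆ Ω ∩ S := by
    rintro z ⟨hz, hz'⟩
    refine ⟨?_, hz⟩
    by_contra h
    have h1 : 0 < g z := hz'
    rw [(hout z h).2] at h1
    exact lt_irrefl _ h1
  have hd : Disjoint (S ∩ {z | 0 < f z}) (S ∩ {z | 0 < g z}) := by
    rw [Set.disjoint_left]
    rintro z ⟨-, h1⟩ ⟨-, h2⟩
    have h1' : 0 < f z := h1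
    have h2' : 0 < g z := h2
    rcases hdis z with h | h
    · rw [h] at h1'
      exact lt_irrefl _ h1'
    · rw [h] at h2'
      exact lt_irrefl _ h2'
  have hfin' : volume (Ω ∩ S) ≠ ⊤ := ne_top_of_le_ne_top hfin (measure_mono inter_subset_left)
  rw [← measureReal_union hd (hS.inter (meas_pos hg))
    (ne_top_of_le_ne_top hfin' (measure_mono hfΩ)) (ne_top_of_le_ne_top hfin' (measure_mono hgΩ))]
  exact measureReal_mono (union_subset hfΩ hgΩ) hfin'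

end CellAux

open CellAux

theorem fk_half {Λ : ℝ} {f : ℂ → ℝ} (hf : Adm f) (h0 : ∀ z, 0 ≤ f z)
    {t σ : ℝ} (hσ : σ = 1 ∨ σ = -1) (hneg : en Λ (Hf t σ) f < 0) :
    Real.pi * j01 ^ 2 / 2 ≤ Λ * volume.real (Hf t σ ∩ {z | 0 < f z}) := by
  have hq : q Λ (foldh t σ f) < 0 := by
    unfold q
    rw [foldh_en hf hσ, foldh_sq hf hσ]
    rw [en_split hf] at hneg
    linarith
  have h1 := FK4.fk (foldh_adm hf hσ) (fun z => h0 _) hq
  rw [foldh_vol hf h0 hσ] at h1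
  linarith

theorem half2 {Ω : Set ℂ} (hΩ : IsOpen Ω) (hfin : volume Ω ≠ ⊤) {Λ : ℝ} (hΛ : 0 ≤ Λ)
    {t σ : ℝ} (hσ : σ = 1 ∨ σ = -1) (h : NegT Ω Λ 2 (Hf t σ)) :
    Real.pi * j01 ^ 2 ≤ Λ * volume.real (Ω ∩ Hf t σ) := by
  obtain ⟨f, g, hf, hg, f0, g0, hdis, hout, hef, heg⟩ := two (meas_Hf t σ) h
  have h1 := fk_half hf f0 hσ hef
  have h2 := fk_half hg g0 hσ heg
  have h3 := mul_le_mul_of_nonneg_left (sum_le hfin (meas_Hf t σ) hf hg hdis hout) hΛ
  rw [mul_add] at h3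
  linarith

theorem quad2 {Ω : Set ℂ} (hΩ : IsOpen Ω) (hfin : volume Ω ≠ ⊤) {Λ : ℝ} (hΛ : 0 ≤ Λ)
    {t s σ τ : ℝ} (hσ : σ = 1 ∨ σ = -1) (hτ : τ = 1 ∨ τ = -1) (h : NegT Ω Λ 2 (Qd t s σ τ)) :
    3 / 4 * (Real.pi * j01 ^ 2) ≤ Λ * volume.real (Ω ∩ Qd t s σ τ) := by
  obtain ⟨f, g, hf, hg, f0, g0, hdis, hout, hef, heg⟩ := two (meas_Qd t s σ τ) h
  have hqf : q Λ (foldq t s σ τ f) < 0 := by
    unfold q
    rw [foldq_en hf hσ hτ, foldq_sq hf hσ hτ]
    rw [en_split hf] at hef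
    linarith
  have hqg : q Λ (foldq t s σ τ g) < 0 := by
    unfold q
    rw [foldq_en hg hσ hτ, foldq_sq hg hσ hτ]
    rw [en_split hg] at heg
    linarith
  have hev : ∀ u : ℂ → ℝ, ∀ z, foldq t s σ τ u (-z) = foldq t s σ τ u z := by
    intro u z
    unfold foldq
    rw [Complex.neg_re, Complex.neg_im, abs_neg, abs_neg]
  have hp := pair_lemma (foldq_adm hf hσ hτ) (foldq_adm hg hσ hτ) (fun z => f0 _) (fun z => g0 _)
    (hev f) (hev g) (fun z => hdis _) hqf hqg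
  have kf := FK4.fk (foldq_adm hf hσ hτ) (fun z => f0 _) hqf
  have kg := FK4.fk (foldq_adm hg hσ hτ) (fun z => g0 _) hqg
  rw [foldq_vol hf f0 hσ hτ, foldq_vol hg g0 hσ hτ] at hp
  rw [foldq_vol hf f0 hσ hτ] at kf
  rw [foldq_vol hg g0 hσ hτ] at kg
  have hL : 0 ≤ Real.pi * j01 ^ 2 := mul_nonneg Real.pi_pos.le (sq_nonneg _)
  have h3 := mul_le_mul_of_nonneg_left (sum_le hfin (meas_Qd t s σ τ) hf hg hdis hout) hΛ
  rw [mul_add] at h3
  rcases hp with hp | hp | hp | hp <;> linarith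

end PL4
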