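import Pool.Agent.Lib.DK4.GDefs

/-!
# PL4 : lower bounds for the fourth Dirichlet eigenvalue of plane open sets by index cuts

THEOREM A.  `λ₄(Ω) |Ω| ≥ (5/2) π j01²` for every open set `Ω` of finite area.
THEOREM B.  `λ₄(Ω) |Ω| ≥ 3 π j01²` if `Ω` has an axis or a centre of symmetry.

`NegT Ω Λ k S`: there is a `k`-dimensional space of test functions of `Ω` on which the energy
`∫_S |∇u|² - Λ u²` is negative definite.
* (Cut) if `NegT Ω Λ n S` and `k1 + k2 = n + 1`, there is `t` with `NegT Ω Λ k1 (S ∩ {p < t})` and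
  `NegT Ω Λ k2 (S ∩ {t < p})`, `p` = real or imaginary part.
* (Two) `NegT Ω Λ 2 S` gives two functions with disjoint supports and negative energy on `S` (sign trick).
* (Cell) half plane: `|Ω ∩ Hf| ≥ π j01²/Λ`; quadrant: `|Ω ∩ Qd| ≥ (3/4) π j01²/Λ` if `NegT Ω Λ 2`.
* (H3) half plane with `NegT Ω Λ 3`: `|Ω ∩ Hf| ≥ (3/2) π j01²/Λ` (cut into two quadrants).
* (Main) whole plane, `NegT Ω Λ 4`: left half plane with index 2, right half plane with index 3.
-/

open MeasureTheory Set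
open scoped ContDiff NNReal

namespace PL4

open DK4

/-- the energy of `u` on `S` -/
noncomputable def en (Λ : ℝ) (S : Set ℂ) (u : ℂ → ℝ) : ℝ :=
  ∫ z in S, (‖fderiv ℝ u z‖ ^ 2 - Λ * u z ^ 2)

/-- the energy on `S` is negative definite on a `k`-dimensional space of test functions of `Ω` -/
def NegT (Ω : Set ℂ) (Λ : ℝ) (k : ℕ) (S : Set ℂ) : Prop :=
  ∃ w : Fin k → ℂ → ℝ, (∀ j, IsTest Ω (w j)) ∧ ∀ c : Fin k → ℝ, c ≠ 0 → en Λ S (uc w c) < 0

end PL4
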