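import Pool.Agent.Lib.PL4.LA
import Pool.Agent.Lib.PL4.Defs
import Pool.Agent.Lib.PL4.Cut
import Pool.Agent.Lib.DK4.Inv

/-!
Module PL4.Par: even and odd parts with respect to a linear isometric involution `T` of the plane.

PROOF.  `w : Fin n → ℂ → ℝ` test functions with `q Λ (uc w c) < 0` for `c ≠ 0` (`en Λ univ = q Λ` by `q_eq_integral`).
`we j z = (w j z + w j (T z))/2`, `wo j z = (w j z - w j (T z))/2`: test functions of `Ω` (`T⁻¹' Ω = Ω` as `T T = 1`;
composition with `T`: `ContDiff`, `tsupport (u ∘ T) = T⁻¹' tsupport u`).  `uc w c = uc we c + uc wo c` pointwise.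
With `u = uc w c`, `u' = u ∘ T`: `q Λ ((u+u')/2) + q Λ ((u-u')/2) = (q Λ u + q Λ u')/2 = q Λ u` (parallelogram
law at each point for `fderiv` and for the values; `InvAux.qL`).
`PL4.la` with the bilinear form `B c d = ∑ i j, c i * d j * β i j`, where
`β i j = ∫ (D(we i) 1 * D(we j) 1 + D(we i) I * D(we j) I - Λ we i * we j)`, so `B c c = q Λ (uc we c)`
(or `β i j` by polarisation: `(q (we i + we j) - q (we i) - q (we j))/2`), and `Q c = q Λ (uc wo c)`.
First alternative: `A : Fin k1 → Fin n → ℝ`; take `fun j => uc we (A j)`: `uc (fun j => uc we (A j)) c = uc we (∑ j, c j • A j)`.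
-/

open MeasureTheory Set
open scoped ContDiff NNReal

namespace PL4

open DK4

/-- negative definite on a `k`-dimensional space of test functions with `w (T z) = ε w z` -/
def NegS (Ω : Set ℂ) (Λ : ℝ) (k : ℕ) (T : ℂ → ℂ) (ε : ℝ) : Prop :=
  ∃ w : Fin k → ℂ → ℝ, (∀ j, IsTest Ω (w j)) ∧ (∀ j z, w j (T z) = ε * w j z) ∧
    ∀ c : Fin k → ℝ, c ≠ 0 → q Λ (uc w c) < 0

namespace ParAux

open CutAux

theorem test_comp {T : ℂ ≃ₗᵢ[ℝ] ℂ} (hTT : ∀ z, T (T z) = z) {Ω : Set ℂ} (hT : ∀ z ∈ Ω, T z ∈ Ω)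
    {u : ℂ → ℝ} (hu : IsTest Ω u) : IsTest Ω (fun z => u (T z)) := by
  refine ⟨hu.1.comp T.contDiff, hu.2.1.comp_homeomorph T.toHomeomorph, ?_⟩
  have h1 : tsupport (fun z => u (T z)) = T ⁻¹' tsupport u := by
    have h2 := tsupport_comp_eq_preimage u T.toHomeomorph
    exact h2
  rw [h1]
  intro z hz
  have h3 : T z ∈ Ω := hu.2.2 hz
  have h4 := hT _ h3
  rw [hTT] at h4
  exact h4

theorem test_lin {Ω : Set ℂ} {u v : ℂ → ℝ} (hu : IsTest Ω u) (hv : IsTest Ω v) (a b : ℝ) :
    IsTest Ω (fun z => a * u z + b * v z) := by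
  have h : IsTest Ω (uc ![u, v] ![a, b]) := by
    refine uc_test (fun j => ?_) _
    fin_cases j
    · exact hu
    · exact hv
  have e : uc ![u, v] ![a, b] = fun z => a * u z + b * v z := by
    funext z
    simp [uc, Fin.sum_univ_two]
  rw [e] at h
  exact h

theorem en_q {Ω : Set ℂ} {Λ : ℝ} {u : ℂ → ℝ} (hu : IsTest Ω u) : en Λ univ u = q Λ u := by
  rw [q_eq_integral hu.adm, en, setIntegral_univ]

/-- parallelogram law -/
theorem para {Ω : Set ℂ} {Λ : ℝ} {u v : ℂ → ℝ} (hu : IsTest Ω u) (hv : IsTest Ω v) :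
    en Λ univ (fun z => (1 / 2) * u z + (1 / 2) * v z) +
      en Λ univ (fun z => (1 / 2) * u z + (-(1 / 2)) * v z) =
      (en Λ univ u + en Λ univ v) / 2 := by
  have hw : ∀ j, IsTest Ω ((![u, v] : Fin 2 → ℂ → ℝ) j) := by
    intro j
    fin_cases j
    · exact hu
    · exact hv
  have e : ∀ a b : ℝ, (fun z => a * u z + b * v z) = uc ![u, v] ![a, b] := by
    intro a b
    funext z
    simp [uc, Fin.sum_univ_two]
  have h := fun a b : ℝ => en_eq (Λ := Λ) (w := ![u, v]) (fun j => (hw j).1) (fun j => (hw j).2.1)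
    ![a, b] univ
  have h1 : ∀ a b : ℝ, en Λ univ (fun z => a * u z + b * v z) =
      a * be Λ ![u, v] univ 0 0 * a + a * be Λ ![u, v] univ 0 1 * b +
        (b * be Λ ![u, v] univ 1 0 * a + b * be Λ ![u, v] univ 1 1 * b) := by
    intro a b
    rw [e, h a b]
    simp [Fin.sum_univ_two]
  have h2 : en Λ univ u = be Λ ![u, v] univ 0 0 := by
    have h3 := h1 1 0
    simp only [one_mul, zero_mul, add_zero, mul_one, mul_zero] at h3
    exact h3
  have h4 : en Λ univ v = be Λ ![u, v] univ 1 1 := by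
    have h3 := h1 0 1
    simp only [one_mul, zero_mul, zero_add, mul_one, mul_zero] at h3
    exact h3
  rw [h1, h1, h2, h4]
  ring

end ParAux

open CutAux ParAux

theorem parity {T : ℂ ≃ₗᵢ[ℝ] ℂ} (hTT : ∀ z, T (T z) = z) {Ω : Set ℂ} (hT : ∀ z ∈ Ω, T z ∈ Ω)
    {Λ : ℝ} {n k1 k2 : ℕ} (hk : k1 + k2 = n + 1) (h : NegT Ω Λ n univ) :
    NegS Ω Λ k1 T 1 ∨ NegS Ω Λ k2 T (-1) := by
  obtain ⟨w, hw, hneg⟩ := h
  set we : Fin n → ℂ → ℝ := fun j z => (1 / 2) * w j z + (1 / 2) * w j (T z) with hwe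
  set wo : Fin n → ℂ → ℝ := fun j z => (1 / 2) * w j z + (-(1 / 2)) * w j (T z) with hwo
  have tE : ∀ j, IsTest Ω (we j) := fun j => test_lin (hw j) (test_comp hTT hT (hw j)) _ _
  have tO : ∀ j, IsTest Ω (wo j) := fun j => test_lin (hw j) (test_comp hTT hT (hw j)) _ _
  have ucE : ∀ c, uc we c = fun z => (1 / 2) * uc w c z + (1 / 2) * uc w c (T z) := by
    intro c
    funext z
    simp only [uc, hwe, Finset.mul_sum, ← Finset.sum_add_distrib]
    refine Finset.sum_congr rfl fun i _ => ?_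
    ring
  have ucO : ∀ c, uc wo c = fun z => (1 / 2) * uc w c z + (-(1 / 2)) * uc w c (T z) := by
    intro c
    funext z
    simp only [uc, hwo, Finset.mul_sum, ← Finset.sum_add_distrib]
    refine Finset.sum_congr rfl fun i _ => ?_
    ring
  have sE : ∀ a z, uc we a (T z) = 1 * uc we a z := by
    intro a z
    rw [ucE]
    simp only [hTT]
    ring
  have sO : ∀ a z, uc wo a (T z) = -1 * uc wo a z := by
    intro a z
    rw [ucO]
    simp only [hTT]
    ring
  have hsum : ∀ c, en Λ univ (uc we c) + en Λ univ (uc wo c) = en Λ univ (uc w c) := by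
    intro c
    have hu := uc_test hw c
    have hv := test_comp hTT hT hu
    rw [ucE, ucO, para hu hv, en_q hu, en_q hv, InvAux.qL]
    ring
  have hB := la hk (Matrix.toBilin' (Matrix.of fun i j => be Λ we univ i j))
    (fun a b => by
      rw [Matrix.toBilin'_apply, Matrix.toBilin'_apply, Finset.sum_comm]
      refine Finset.sum_congr rfl fun i _ => Finset.sum_congr rfl fun j _ => ?_
      rw [Matrix.of_apply, Matrix.of_apply, be_symm]
      ring)
    (fun c => en Λ univ (uc wo c)) (fun c hc => by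
      rw [Matrix.toBilin'_apply]
      have e := en_eq (Λ := Λ) (fun j => (tE j).1) (fun j => (tE j).2.1) c univ
      simp only [Matrix.of_apply]
      rw [← e, hsum]
      exact hneg c hc)
  rcases hB with ⟨A, hA⟩ | ⟨A, hA⟩
  · left
    refine ⟨fun l => uc we (A l), fun l => uc_test tE _, fun l z => sE _ z, fun c hc => ?_⟩
    rw [uc_comp, ← en_q (uc_test tE _), en_eq (fun j => (tE j).1) (fun j => (tE j).2.1)]
    have h3 := hA c hc
    rw [Matrix.toBilin'_apply] at h3
    simpa only [Matrix.of_apply] using h3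
  · right
    refine ⟨fun l => uc wo (A l), fun l => uc_test tO _, fun l z => sO _ z, fun c hc => ?_⟩
    rw [uc_comp, ← en_q (uc_test tO _)]
    exact hA c hc

end PL4
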