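import Pool.Agent.Lib.PL4.Main
import Pool.Agent.Lib.PL4.Par

/-!
Module PL4.Sym: Theorem B for `Λ` and test functions.

AXIS (`T z = -conj z = ⟨-re, im⟩`; `Complex.conjLIE` and `LinearIsometryEquiv.neg`): `parity` with `k1 = 3`, `k2 = 2`.
 * even, index 3: `en Λ (Hf 0 1) u = q Λ u / 2` for `u ∘ T = u` (`T` maps `Hf 0 1` onto `Hf 0 (-1)` and preserves the
   integrand, the line is a null set), so `NegT Ω Λ 3 (Hf 0 1)`, `half3`, and `|Ω ∩ Hf 0 1| = |Ω ∩ Hf 0 (-1)|`, so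
   `2 |Ω ∩ Hf 0 1| ≤ |Ω|`.
 * odd, index 2: `en Λ (Hf 0 1) u = q Λ u / 2` for `u ∘ T = -u`; `two_aux` on `S = Hf 0 1`: `f = max u 0`, `g = max (-u) 0` with
   `u` odd, so `f = g = 0` on the axis; `f' = indicator (Hf 0 1) f` is Lipschitz with compact support (`DK4.lip_ind` or
   directly: a segment from a point of `Hf` to a point outside crosses the axis), `q Λ f' = en Λ (Hf 0 1) f < 0` and
   `FK4.fk` gives `π j01² ≤ Λ |Hf ∩ {0 < f}|`, the same for `g`; so `2 π j01² ≤ Λ |Ω ∩ Hf|`, `4 π j01² ≤ Λ |Ω|`.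
CENTRE (`T z = -z`), `k1 = 2`, `k2 = 3`.
 * even, index 2: `two_aux` on `S = univ`: `f, g` are even, `pair_lemma` and `FK4.fk`: `3 π j01² ≤ Λ (|{0<f}| + |{0<g}|)`.
 * odd, index 3: `en Λ (Hf 0 1) u = q Λ u / 2` for `u ∘ T = -u`, `NegT Ω Λ 3 (Hf 0 1)`, `half3`.
-/

open MeasureTheory Set
open scoped ContDiff NNReal

namespace PL4

open DK4

namespace SymAux

open CellAux MainAux CutAux ParAux

/-- the energy on half of the plane of a function with a symmetry up to sign -/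
theorem en_half (T : ℂ ≃ₗᵢ[ℝ] ℂ) (hT : T ⁻¹' (Hf 0 1) = Hf 0 (-1)) {Λ ε : ℝ}
    (hε : ε = 1 ∨ ε = -1) {u : ℂ → ℝ} (hu : Adm u) (hs : ∀ z, u (T z) = ε * u z) :
    2 * en Λ (Hf 0 1) u = q Λ u := by
  have hε2 : ε ^ 2 = 1 := by rcases hε with h | h <;> rw [h] <;> norm_num
  have hden : ∀ z, ‖fderiv ℝ u (T z)‖ ^ 2 - Λ * u (T z) ^ 2 =
      ‖fderiv ℝ u z‖ ^ 2 - Λ * u z ^ 2 := by
    intro z
    have h1 := InvAux.fd T u z
    have h2 : (fun z => u (T z)) = fun z => ε * u z := funext hs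
    rw [h2] at h1
    have h3 : ‖fderiv ℝ (fun z => ε * u z) z‖ ^ 2 = ‖fderiv ℝ u z‖ ^ 2 := by
      rcases hε with h | h
      · rw [h]
        simp only [one_mul]
      · rw [h]
        have e : (fun z => (-1 : ℝ) * u z) = fun z => -u z := by
          funext z
          ring
        rw [e, fderiv_fun_neg, norm_neg]
    rw [← h1, h3, hs, mul_pow, hε2, one_mul]
  have hint : Integrable fun z => ‖fderiv ℝ u z‖ ^ 2 - Λ * u z ^ 2 :=
    hu.integrable_en.sub (hu.integrable_sq.const_mul Λ)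
  have h1 : ∫ z in Hf 0 (-1), (‖fderiv ℝ u z‖ ^ 2 - Λ * u z ^ 2) =
      ∫ z in Hf 0 1, (‖fderiv ℝ u z‖ ^ 2 - Λ * u z ^ 2) := by
    have h := (T.measurePreserving).setIntegral_preimage_emb (InvAux.emb T)
      (fun z => ‖fderiv ℝ u z‖ ^ 2 - Λ * u z ^ 2) (Hf 0 1)
    rw [hT] at h
    rw [← h]
    exact setIntegral_congr_fun (meas_Hf 0 (-1)) fun z _ => (hden z).symm
  have hae : ((Hf 0 1)ᶜ : Set ℂ) =ᵐ[volume] (Hf 0 (-1) : Set ℂ) := by
    have h2 : ∀ᵐ z : ℂ, z.re ≠ 0 := by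
      rw [ae_iff]
      simpa using null_re 0
    filter_upwards [h2] with z hz
    apply propext
    show z ∈ (Hf 0 1)ᶜ ↔ z ∈ Hf 0 (-1)
    simp only [Hf, mem_compl_iff, mem_ofPred_eq, not_lt]
    constructor
    · intro h3
      have h4 : z.re ≤ 0 := by linarith
      have h5 := lt_of_le_of_ne h4 hz
      linarith
    · intro h3
      linarith
  rw [q_eq_integral hu, ← integral_add_compl (meas_Hf 0 1) hint, setIntegral_congr_set hae, h1]
  unfold en
  ring

/-- the area of the half of a symmetric set -/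
theorem vol_half (T : ℂ ≃ₗᵢ[ℝ] ℂ) (hTT : ∀ z, T (T z) = z) (hT : T ⁻¹' (Hf 0 1) = Hf 0 (-1))
    {Ω : Set ℂ} (hΩ : IsOpen Ω) (hfin : volume Ω ≠ ⊤) (hS : ∀ z ∈ Ω, T z ∈ Ω) :
    2 * volume.real (Ω ∩ Hf 0 1) ≤ volume.real Ω := by
  have hpre : T ⁻¹' Ω = Ω := by
    ext z
    constructor
    · intro h
      have h1 := hS _ h
      rwa [hTT] at h1
    · intro h
      exact hS z h
  have h1 : volume (Ω ∩ Hf 0 (-1)) = volume (Ω ∩ Hf 0 1) := by
    have h := (T.measurePreserving).measure_preimage_emb (InvAux.emb T) (Ω ∩ Hf 0 1)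
    rw [preimage_inter, hT, hpre] at h
    exact h
  have h2 : volume.real (Ω ∩ Hf 0 (-1)) = volume.real (Ω ∩ Hf 0 1) := by
    unfold Measure.real
    rw [h1]
  have h3 : volume.real (Ω ∩ Hf 0 (-1)) + volume.real (Ω ∩ Hf 0 1) ≤ volume.real Ω := by
    apply real_two hfin inter_subset_left inter_subset_left
    · rw [Set.disjoint_left]
      rintro z ⟨-, h6⟩ ⟨-, h7⟩
      have h8 : 0 < -1 * (z.re - 0) := h6
      have h9 : 0 < 1 * (z.re - 0) := h7
      linarith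
    · exact (hΩ.inter (isOpen_Hf 0 1)).measurableSet
  linarith

/-- a symmetric space of test functions gives a space on the half plane -/
theorem negT_half (T : ℂ ≃ₗᵢ[ℝ] ℂ) (hT : T ⁻¹' (Hf 0 1) = Hf 0 (-1)) {Ω : Set ℂ} {Λ ε : ℝ}
    (hε : ε = 1 ∨ ε = -1) {k : ℕ} (h : NegS Ω Λ k T ε) : NegT Ω Λ k (Hf 0 1) := by
  obtain ⟨w, hw, hs, hneg⟩ := h
  refine ⟨w, hw, fun c hc => ?_⟩
  have h1 := en_half T hT (Λ := Λ) hε (uc_test hw c).adm (fun z => by
    simp only [uc, hs, Finset.mul_sum]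
    exact Finset.sum_congr rfl fun i _ => by ring)
  have h2 := hneg c hc
  linarith

/-- index three with a symmetry -/
theorem three (T : ℂ ≃ₗᵢ[ℝ] ℂ) (hTT : ∀ z, T (T z) = z) (hT : T ⁻¹' (Hf 0 1) = Hf 0 (-1))
    {Ω : Set ℂ} (hΩ : IsOpen Ω) (hfin : volume Ω ≠ ⊤) (hS : ∀ z ∈ Ω, T z ∈ Ω) {Λ ε : ℝ}
    (hΛ : 0 ≤ Λ) (hε : ε = 1 ∨ ε = -1) (h : NegS Ω Λ 3 T ε) :
    3 * (Real.pi * j01 ^ 2) ≤ Λ * volume.real Ω := by
  have h1 := half3 hΩ hfin hΛ (Or.inl rfl) (negT_half T hT hε h)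
  have h2 := mul_le_mul_of_nonneg_left (vol_half T hTT hT hΩ hfin hS) hΛ
  linarith

/-- Faber-Krahn for a function on the half plane that vanishes on the line -/
theorem fk_zero {Λ : ℝ} {f : ℂ → ℝ} (hf : Adm f) (h0 : ∀ z, 0 ≤ f z)
    (hz : ∀ z : ℂ, z.re = 0 → f z = 0) (hneg : en Λ (Hf 0 1) f < 0) :
    Real.pi * j01 ^ 2 ≤ Λ * volume.real (Hf 0 1 ∩ {z | 0 < f z}) := by
  have hfr : ∀ z ∈ frontier (Hf 0 1), f z = 0 := by
    intro z h
    apply hz
    have h1 := frontier_lt_subset_eq (f := fun _ : ℂ => (0 : ℝ))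
      (g := fun z : ℂ => 1 * (z.re - 0)) continuous_const
      (continuous_const.mul (Complex.continuous_re.sub continuous_const)) h
    have h2 : (0 : ℝ) = 1 * (z.re - 0) := h1
    linarith
  have hadm := hf.ind hfr
  have hq : q Λ ((Hf 0 1).indicator f) < 0 := by
    rw [q_ind hf h0 (isOpen_Hf 0 1) hfr]
    exact hneg
  have h := FK4.fk hadm (fun z => by
    by_cases hz : z ∈ Hf 0 1
    · rw [indicator_of_mem hz]
      exact h0 z
    · rw [indicator_of_notMem hz]) hq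
  have e : {z | 0 < (Hf 0 1).indicator f z} = Hf 0 1 ∩ {z | 0 < f z} := by
    ext z
    by_cases hz : z ∈ Hf 0 1
    · simp [hz]
    · simp [hz]
  rwa [e] at h

end SymAux

open SymAux CellAux

theorem axis4 {Ω : Set ℂ} (hΩ : IsOpen Ω) (hfin : volume Ω ≠ ⊤) {Λ : ℝ} (hΛ : 0 ≤ Λ)
    (hT : ∀ z ∈ Ω, -(starRingEnd ℂ) z ∈ Ω) (h : NegT Ω Λ 4 univ) :
    3 * (Real.pi * j01 ^ 2) ≤ Λ * volume.real Ω := by
  obtain ⟨T, hTd⟩ : ∃ T : ℂ ≃ₗᵢ[ℝ] ℂ, ∀ z, T z = -(starRingEnd ℂ) z :=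
    ⟨Complex.conjLIE.trans (LinearIsometryEquiv.neg ℝ), fun z => rfl⟩
  have hTT : ∀ z, T (T z) = z := by
    intro z
    rw [hTd, hTd, map_neg, Complex.conj_conj, neg_neg]
  have hTS : ∀ z ∈ Ω, T z ∈ Ω := by
    intro z hz
    rw [hTd]
    exact hT z hz
  have hpre : T ⁻¹' (Hf 0 1) = Hf 0 (-1) := by
    ext z
    simp only [mem_preimage, hTd, Hf, mem_ofPred_eq, Complex.neg_re, Complex.conj_re]
    constructor
    · intro h1
      linarith
    · intro h1
      linarith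
  rcases parity (T := T) hTT hTS (n := 4) (k1 := 3) (k2 := 2) (by norm_num) h with h1 | h1
  · exact three T hTT hpre hΩ hfin hTS hΛ (Or.inl rfl) h1
  · obtain ⟨w, hw, hs, hneg⟩ := h1
    have hneg2 : ∀ c : Fin 2 → ℝ, c ≠ 0 → en Λ (Hf 0 1) (uc w c) < 0 := by
      intro c hc
      have h2 := en_half T hpre (Λ := Λ) (Or.inr rfl) (CutAux.uc_test hw c).adm (fun z => by
        simp only [uc, hs, Finset.mul_sum]
        exact Finset.sum_congr rfl fun i _ => by ring)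
      have h3 := hneg c hc
      linarith
    obtain ⟨a, b, hf, hg, hdis, hout, hef, heg⟩ := two_aux (meas_Hf 0 1) hw hneg2
    have hax : ∀ j, ∀ z : ℂ, z.re = 0 → w j z = 0 := by
      intro j z hz
      have e : T z = z := by
        rw [hTd]
        apply Complex.ext
        · rw [Complex.neg_re, Complex.conj_re, hz, neg_zero]
        · rw [Complex.neg_im, Complex.conj_im, neg_neg]
      have h2 := hs j z
      rw [e] at h2
      linarith
    have h2 := fk_zero hf (fun z => le_max_right _ _) (fun z hz => by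
      simp only [hax _ z hz, mul_zero, add_zero, max_self]) hef
    have h3 := fk_zero hg (fun z => le_max_right _ _) (fun z hz => by
      simp only [hax _ z hz, mul_zero, add_zero, neg_zero, max_self]) heg
    have h4 := mul_le_mul_of_nonneg_left (sum_le hfin (meas_Hf 0 1) hf hg hdis hout) hΛ
    have h5 := mul_le_mul_of_nonneg_left (vol_half T hTT hpre hΩ hfin hTS) hΛ
    have hL := L_pos
    rw [mul_add] at h4
    linarith

theorem centre4 {Ω : Set ℂ} (hΩ : IsOpen Ω) (hfin : volume Ω ≠ ⊤) {Λ : ℝ} (hΛ : 0 ≤ Λ)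
    (hT : ∀ z ∈ Ω, -z ∈ Ω) (h : NegT Ω Λ 4 univ) :
    3 * (Real.pi * j01 ^ 2) ≤ Λ * volume.real Ω := by
  obtain ⟨T, hTd⟩ : ∃ T : ℂ ≃ₗᵢ[ℝ] ℂ, ∀ z, T z = -z :=
    ⟨LinearIsometryEquiv.neg ℝ, fun z => rfl⟩
  have hTT : ∀ z, T (T z) = z := by
    intro z
    rw [hTd, hTd, neg_neg]
  have hTS : ∀ z ∈ Ω, T z ∈ Ω := by
    intro z hz
    rw [hTd]
    exact hT z hz
  have hpre : T ⁻¹' (Hf 0 1) = Hf 0 (-1) := by
    ext z
    simp only [mem_preimage, hTd, Hf, mem_ofPred_eq, Complex.neg_re]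
    constructor
    · intro h1
      linarith
    · intro h1
      linarith
  rcases parity (T := T) hTT hTS (n := 4) (k1 := 2) (k2 := 3) (by norm_num) h with h1 | h1
  · obtain ⟨w, hw, hs, hneg⟩ := h1
    have hneg2 : ∀ c : Fin 2 → ℝ, c ≠ 0 → en Λ univ (uc w c) < 0 := by
      intro c hc
      rw [ParAux.en_q (CutAux.uc_test hw c)]
      exact hneg c hc
    obtain ⟨a, b, hf, hg, hdis, hout, hef, heg⟩ := two_aux MeasurableSet.univ hw hneg2
    have hev : ∀ j, ∀ z : ℂ, w j (-z) = w j z := by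
      intro j z
      have h2 := hs j z
      rw [hTd, one_mul] at h2
      exact h2
    have hqf := hef
    have hqg := heg
    unfold en at hqf hqg
    rw [Measure.restrict_univ, ← q_eq_integral hf] at hqf
    rw [Measure.restrict_univ, ← q_eq_integral hg] at hqg
    have hp := pair_lemma hf hg (fun z => le_max_right _ _) (fun z => le_max_right _ _)
      (fun z => by simp only [hev]) (fun z => by simp only [hev]) hdis hqf hqg
    have kf := FK4.fk hf (fun z => le_max_right _ _) hqf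
    have kg := FK4.fk hg (fun z => le_max_right _ _) hqg
    have h4 := mul_le_mul_of_nonneg_left (sum_le hfin MeasurableSet.univ hf hg hdis hout) hΛ
    rw [univ_inter, univ_inter, inter_univ, mul_add] at h4
    have hL := L_pos
    rcases hp with hp | hp | hp | hp <;> linarith
  · exact three T hTT hpre hΩ hfin hTS hΛ (Or.inr rfl) h1

end PL4
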