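import Pool.Agent.Lib.PL4.Sym
import Pool.Agent.Lib.DK4.Iso

/-!
Module PL4.SymE: Theorem B for the eigenvalue `dirEig 4`.

As in `DK4.Final.two_axes`: `Ω' = (fun w => p + b * w) ⁻¹' Ω` with `‖b‖ = 1` (`DK4.dirEig_iso`, `DK4.vol_iso`);
for the axis through `p` with direction `a` take `b = a * I` or `b = a`, so that the axis of `Ω'` is the imaginary
(or, up to the choice of `b`, the needed) axis: `z ∈ Ω → p + a² conj (z - p) ∈ Ω` becomes
`w ∈ Ω' → (a/b)² ... conj w ∈ Ω'`; with `b = a * I`: `p + b w ↦ p + a² conj b conj w = p + b (-conj w)` as `conj b = -conj a I`.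
Then as in `DK4.eig_bound`: `le_csInf`, `exists_space`, `exists_between`, `negT_of_space`, `axis4` / `centre4`.
-/

open MeasureTheory Set
open scoped ContDiff NNReal

namespace PL4

open DK4

namespace SymEAux

/-- from test functions to the eigenvalue -/
theorem eig_of {C : ℝ} {Ω : Set ℂ} (hΩ : IsOpen Ω) (hne : Ω.Nonempty) (hfin : volume Ω ≠ ⊤)
    (h : ∀ Λ : ℝ, 0 ≤ Λ → NegT Ω Λ 4 univ → C ≤ Λ * volume.real Ω) :
    C ≤ dirEig 4 Ω * volume.real Ω := by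
  have hpos : 0 < volume.real Ω := by
    unfold Measure.real
    exact ENNReal.toReal_pos (hΩ.measure_pos volume hne).ne' hfin
  rw [← div_le_iff₀ hpos]
  unfold dirEig
  apply le_csInf (exists_space 4 hΩ hne)
  rintro Λ ⟨V, hV, hVt, hq⟩
  rw [div_le_iff₀ hpos]
  by_contra hcon
  rw [not_le] at hcon
  obtain ⟨Λ', h1, h2⟩ : ∃ Λ', Λ < Λ' ∧ Λ' * volume.real Ω < C := by
    obtain ⟨Λ', h1, h2⟩ := exists_between ((lt_div_iff₀ hpos).2 hcon)
    exact ⟨Λ', h1, by rwa [lt_div_iff₀ hpos] at h2⟩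
  have hneg : ∀ u ∈ V, u ≠ 0 → q Λ' u < 0 := by
    intro u hu hne'
    have h3 := hq u hu
    have h4 := integral_sq_pos (hVt u hu) hne'
    unfold q
    nlinarith
  have hT := negT_of_space V hV hVt hneg
  have hΛ0 : 0 ≤ Λ := by
    by_contra hc
    rw [not_le] at hc
    have : Module.Finite ℝ V := Module.finite_of_finrank_pos (by omega)
    obtain ⟨v, hv⟩ := Module.finrank_pos_iff_exists_ne_zero.1 (show 0 < Module.finrank ℝ V by omega)
    have hv' : (v : ℂ → ℝ) ≠ 0 := fun h => hv (Subtype.ext h)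
    have h3 := hq v v.2
    have h4 := integral_sq_pos (hVt v v.2) hv'
    have h5 : 0 ≤ ∫ z, ‖fderiv ℝ (v : ℂ → ℝ) z‖ ^ 2 := integral_nonneg fun z => by positivity
    nlinarith
  have h6 := h Λ' (hΛ0.trans h1.le) hT
  linarith

/-- the data of the moved set -/
theorem move {b p : ℂ} (hb : ‖b‖ = 1) {Ω : Set ℂ} (hΩ : IsOpen Ω) (hne : Ω.Nonempty)
    (hfin : volume Ω ≠ ⊤) :
    IsOpen ((fun w => p + b * w) ⁻¹' Ω) ∧ ((fun w => p + b * w) ⁻¹' Ω).Nonempty ∧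
      volume ((fun w => p + b * w) ⁻¹' Ω) ≠ ⊤ ∧
      volume.real ((fun w => p + b * w) ⁻¹' Ω) = volume.real Ω := by
  have hb0 : b ≠ 0 := by
    intro h
    rw [h] at hb
    simp at hb
  refine ⟨hΩ.preimage (by fun_prop), ?_, by rw [vol_iso hb]; exact hfin, ?_⟩
  · obtain ⟨z, hz⟩ := hne
    refine ⟨(z - p) / b, ?_⟩
    change p + b * ((z - p) / b) ∈ Ω
    rw [mul_div_cancel₀ _ hb0, add_sub_cancel]
    exact hz
  · unfold Measure.real
    rw [vol_iso hb]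

end SymEAux

open SymEAux

/-- one axis of symmetry: the line through `p` with direction `a` -/
theorem eig_axis {p a : ℂ} (ha : ‖a‖ = 1) {Ω : Set ℂ} (hΩ : IsOpen Ω) (hne : Ω.Nonempty)
    (hfin : volume Ω ≠ ⊤) (hS : ∀ z ∈ Ω, p + a ^ 2 * (starRingEnd ℂ) (z - p) ∈ Ω) :
    3 * (Real.pi * j01 ^ 2) ≤ dirEig 4 Ω * volume.real Ω := by
  have haa : a * (starRingEnd ℂ) a = 1 := by
    rw [Complex.mul_conj, Complex.normSq_eq_norm_sq, ha]; simp
  have hb : ‖a * Complex.I‖ = 1 := by rw [norm_mul, ha, Complex.norm_I, one_mul]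
  obtain ⟨h1, h2, h3, h4⟩ := move (p := p) hb hΩ hne hfin
  rw [← dirEig_iso 4 (p := p) hb Ω, ← h4]
  refine eig_of h1 h2 h3 fun Λ hΛ hN => axis4 h1 h3 hΛ ?_ hN
  intro w hw
  have h5 := hS _ hw
  change p + a * Complex.I * -(starRingEnd ℂ) w ∈ Ω
  convert h5 using 1
  rw [add_sub_cancel_left, map_mul, map_mul, Complex.conj_I]
  linear_combination (a * Complex.I * (starRingEnd ℂ) w) * haa

/-- a centre of symmetry -/
theorem eig_centre {p : ℂ} {Ω : Set ℂ} (hΩ : IsOpen Ω) (hne : Ω.Nonempty)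
    (hfin : volume Ω ≠ ⊤) (hS : ∀ z ∈ Ω, 2 * p - z ∈ Ω) :
    3 * (Real.pi * j01 ^ 2) ≤ dirEig 4 Ω * volume.real Ω := by
  have hb : ‖(1 : ℂ)‖ = 1 := norm_one
  obtain ⟨h1, h2, h3, h4⟩ := move (p := p) hb hΩ hne hfin
  rw [← dirEig_iso 4 (p := p) hb Ω, ← h4]
  refine eig_of h1 h2 h3 fun Λ hΛ hN => centre4 h1 h3 hΛ ?_ hN
  intro w hw
  have h5 := hS _ hw
  change p + 1 * -w ∈ Ω
  convert h5 using 1
  ring

end PL4
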