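import Pool.Agent.Lib.PL4.Defs
import Pool.Agent.Lib.DK4.Sign

/-!
Module PL4.Two: two disjoint negative pieces, from the sign trick.

PROOF.  `DK4.sign_trick` with `v = w 0`, `w = w 1` (`uc w ![a, b] z = a * w 0 z + b * w 1 z`, `Fin.sum_univ_two`) gives
`a, b` not both zero such that with `u z = a * w 0 z + b * w 1 z` the integral of `|∇u|² - Λ u²` over
`S ∩ {0 < u}` and over `S ∩ {u < 0}` is negative.  `f = max u 0`, `g = max (-u) 0`: `Adm` (`IsTest.adm` for `u` or for
`w 0`, `w 1` and sums; `Adm.pos`, `Adm.neg`), nonnegative, at each point one of them is `0`, both vanish outside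
`Ω` (there `w 0 = w 1 = 0` as `tsupport ⊆ Ω`).  Energies: as in `DK4.q_pos` (`fderiv_pos`): the integrand of `f` is the
indicator of `{0 < u}` times that of `u`, so `en Λ S f` is the integral over `S ∩ {0 < u}`
(`setIntegral_indicator`); similarly for `g` (`‖fderiv (-u)‖ = ‖fderiv u‖`).
`sgn`: if moreover `w 0` and `w 1` have a symmetry `w j (T z) = w j z` for all `z`, so have `f` and `g`; if
`w j (T z) = - w j z` then `f z = 0` and `g z = 0` whenever `T z = z`.
-/

open MeasureTheory Set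
open scoped ContDiff NNReal

namespace PL4

open DK4

namespace TwoAux

theorem en_pos {Λ : ℝ} {S : Set ℂ} {u : ℂ → ℝ} (hu : Continuous u) :
    en Λ S (fun z => max (u z) 0) =
      ∫ z in S ∩ {z | 0 < u z}, (‖fderiv ℝ u z‖ ^ 2 - Λ * u z ^ 2) := by
  have hm : MeasurableSet {z | 0 < u z} := (isOpen_lt continuous_const hu).measurableSet
  rw [← setIntegral_indicator hm, en]
  refine integral_congr_ae (Filter.Eventually.of_forall fun z => ?_)
  simp only [fderiv_pos hu]
  by_cases hz : 0 < u z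
  · rw [indicator_of_mem (s := {z | 0 < u z}) hz, indicator_of_mem (s := {z | 0 < u z}) hz,
      max_eq_left hz.le]
  · rw [indicator_of_notMem (s := {z | 0 < u z}) hz, indicator_of_notMem (s := {z | 0 < u z}) hz,
      max_eq_right (not_lt.1 hz), norm_zero]
    ring

theorem en_neg {Λ : ℝ} {S : Set ℂ} {u : ℂ → ℝ} (hu : Continuous u) :
    en Λ S (fun z => max (-u z) 0) =
      ∫ z in S ∩ {z | u z < 0}, (‖fderiv ℝ u z‖ ^ 2 - Λ * u z ^ 2) := by
  rw [en_pos (u := fun z => -u z) hu.neg]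
  have e1 : {z : ℂ | 0 < -u z} = {z | u z < 0} := by
    ext z
    simp
  rw [e1]
  refine integral_congr_ae (Filter.Eventually.of_forall fun z => ?_)
  have e : fderiv ℝ (fun z => -u z) z = -fderiv ℝ u z := fderiv_fun_neg
  simp only [e, norm_neg, neg_sq]

end TwoAux

/-- the pieces, with the function they come from -/
theorem two_aux {Ω : Set ℂ} {Λ : ℝ} {S : Set ℂ} (hS : MeasurableSet S) {w : Fin 2 → ℂ → ℝ}
    (hw : ∀ j, IsTest Ω (w j)) (hneg : ∀ c : Fin 2 → ℝ, c ≠ 0 → en Λ S (uc w c) < 0) :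
    ∃ a b : ℝ, let f := fun z => max (a * w 0 z + b * w 1 z) 0
      let g := fun z => max (-(a * w 0 z + b * w 1 z)) 0
      Adm f ∧ Adm g ∧ (∀ z, f z = 0 ∨ g z = 0) ∧ (∀ z, z ∉ Ω → f z = 0 ∧ g z = 0) ∧
      en Λ S f < 0 ∧ en Λ S g < 0 := by
  have hz : ∀ j, ∀ z, z ∉ Ω → w j z = 0 := fun j z hz =>
    image_eq_zero_of_notMem_tsupport fun h => hz ((hw j).2.2 h)
  obtain ⟨a, b, -, h1, h2⟩ := sign_trick (Λ := Λ) hS (hw 0).1 (hw 0).2.1 (hw 1).1 (hw 1).2.1
    (fun a b hab => by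
      have hc : (![a, b] : Fin 2 → ℝ) ≠ 0 := by
        intro h
        apply hab
        exact ⟨by simpa using congrFun h 0, by simpa using congrFun h 1⟩
      have h3 := hneg _ hc
      have e : uc w ![a, b] = fun z => a * w 0 z + b * w 1 z := by
        funext z
        simp [uc, Fin.sum_univ_two]
      rw [e] at h3
      exact h3)
  have hu : IsTest Ω (fun z => a * w 0 z + b * w 1 z) := by
    refine ⟨(contDiff_const.mul (hw 0).1).add (contDiff_const.mul (hw 1).1), ?_, ?_⟩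
    · exact ((hw 0).2.1.mul_left).add ((hw 1).2.1.mul_left)
    · refine (tsupport_add _ _).trans (union_subset ?_ ?_)
      · exact (closure_mono (Function.support_mul_subset_right _ _)).trans (hw 0).2.2
      · exact (closure_mono (Function.support_mul_subset_right _ _)).trans (hw 1).2.2
  have hA : Adm (fun z => a * w 0 z + b * w 1 z) := hu.adm
  refine ⟨a, b, hA.pos, hA.neg.pos, fun z => ?_, fun z hz' => ?_, ?_, ?_⟩
  · rcases le_total (a * w 0 z + b * w 1 z) 0 with h | h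
    · exact Or.inl (max_eq_right h)
    · exact Or.inr (max_eq_right (by linarith))
  · simp [hz 0 z hz', hz 1 z hz']
  · rw [TwoAux.en_pos hA.continuous]
    exact h1
  · rw [TwoAux.en_neg hA.continuous]
    exact h2

theorem two {Ω : Set ℂ} {Λ : ℝ} {S : Set ℂ} (hS : MeasurableSet S) (h : NegT Ω Λ 2 S) :
    ∃ f g : ℂ → ℝ, Adm f ∧ Adm g ∧ (∀ z, 0 ≤ f z) ∧ (∀ z, 0 ≤ g z) ∧
      (∀ z, f z = 0 ∨ g z = 0) ∧ (∀ z, z ∉ Ω → f z = 0 ∧ g z = 0) ∧
      en Λ S f < 0 ∧ en Λ S g < 0 := by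
  obtain ⟨w, hw, hneg⟩ := h
  obtain ⟨a, b, h1, h2, h3, h4, h5, h6⟩ := two_aux hS hw hneg
  exact ⟨_, _, h1, h2, fun z => le_max_right _ _, fun z => le_max_right _ _, h3, h4, h5, h6⟩

end PL4
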